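import Pool.Agent.helper51.QW.Spec
import Pool.Agent.helper17.AA.L2
import Pool.Agent.helper71.AA.K4

/-! # Project QW (MP_ad8ced_nt), row QWF: the theorem from the classes -/

set_option autoImplicit false

namespace Pool.Agent.PT

open Finset Pool.Agent.helper71.AA

theorem QWF_dvd (M w : ℕ) (hM : Squarefree M) (h : M ≤ w) : M ∣ primorial w := by
  have hM0 : M ≠ 0 := hM.ne_zero
  have h1 : (∏ p ∈ M.primeFactors, p) ∣ primorial w := by
    refine Finset.prod_dvd_prod_of_subset _ _ _ fun p hp => ?_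
    refine Finset.mem_filter.2 ⟨?_, Nat.prime_of_mem_primeFactors hp⟩
    have := Nat.le_of_mem_primeFactors hp
    exact Finset.mem_range.2 (by omega)
  rw [Nat.prod_primeFactors_of_squarefree hM] at h1
  exact h1

/-- **QWF**: sum over the classes. -/
theorem QWF (h1 : QWP_stmt) : QWF_stmt := by
  intro M hM
  classical
  obtain ⟨w₀, hw₀⟩ := h1
  obtain ⟨w, hw0, hw3, hwM⟩ : ∃ w : ℕ, w₀ ≤ w ∧ 3 ≤ w ∧ M ≤ w :=
    ⟨max w₀ (max 3 M), le_max_left _ _, (le_max_left _ _).trans (le_max_right _ _),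
      (le_max_right _ _).trans (le_max_right _ _)⟩
  obtain ⟨c, C, X₀, hc, hC, h⟩ := hw₀ w hw0
  set W := primorial w with hW
  have hWpos : 0 < W := primorial_pos w
  have hWr : (0 : ℝ) < W := by exact_mod_cast hWpos
  refine ⟨c, C, max X₀ (max 1 (3000 * W)), hc, hC, ?_⟩
  intro X P hX hP1 hP2
  have hX0 : X₀ ≤ X := (le_max_left _ _).trans hX
  have hX1 : 1 ≤ X := ((le_max_left _ _).trans (le_max_right _ _)).trans hX
  have hX2 : 3000 * (W : ℝ) ≤ X := ((le_max_right _ _).trans (le_max_right _ _)).trans hX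
  have h2W : 2 ∣ W := by
    refine Finset.dvd_prod_of_mem (fun p => p) (Finset.mem_filter.2 ⟨?_, Nat.prime_two⟩)
    exact Finset.mem_range.2 (by omega)
  have h3W : 3 ∣ W := by
    refine Finset.dvd_prod_of_mem (fun p => p) (Finset.mem_filter.2 ⟨?_, Nat.prime_three⟩)
    exact Finset.mem_range.2 (by omega)
  have hMW : M ∣ W := QWF_dvd M w hM hwM
  set T : Finset ℕ := (Finset.range W).filter (fun a₀ => a₀ ≡ 8 [MOD M] ∧ a₀ % 2 = 0 ∧ a₀ % 3 ≠ 1) with hT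
  have hb : ∀ a₀ ∈ T, ∃ b : ℕ, b.Coprime W ∧ ∀ l : ℕ, l.Prime → l ≤ w → ¬ (a₀ * b ^ 2 ≡ 1 [MOD l]) := by
    intro a₀ ha₀
    obtain ⟨-, -, h20, h30⟩ := Finset.mem_filter.1 ha₀
    exact exists_b w a₀ h20 h30
  choose! b hb1 hb2 using hb
  -- the upper bound
  have hS : ((((Icc 1 ⌊X⌋₊).filter (fun a => a ≡ 8 [MOD M] ∧ a % 2 = 0 ∧ a % 3 ≠ 1)).card : ℕ) : ℝ) ≤
      ∑ _a₀ ∈ T, (X / (W : ℝ) + 1) := by
    have hsub : (Icc 1 ⌊X⌋₊).filter (fun a => a ≡ 8 [MOD M] ∧ a % 2 = 0 ∧ a % 3 ≠ 1) ⊆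
        T.biUnion (fun a₀ => As W a₀ X) := by
      intro a ha
      obtain ⟨ha1, ha2, ha3, ha4⟩ := Finset.mem_filter.1 ha
      refine Finset.mem_biUnion.2 ⟨a % W, ?_, ?_⟩
      · refine Finset.mem_filter.2 ⟨Finset.mem_range.2 (Nat.mod_lt _ hWpos), ?_, ?_, ?_⟩
        · exact ((Nat.mod_modEq a W).of_dvd hMW).trans ha2
        · rw [Nat.mod_mod_of_dvd _ h2W]
          exact ha3
        · rw [Nat.mod_mod_of_dvd _ h3W]
          exact ha4
      · exact Finset.mem_filter.2 ⟨ha1, (Nat.mod_modEq a W).symm⟩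
    have hcard := (Finset.card_le_card hsub).trans Finset.card_biUnion_le
    have hcard' : ((((Icc 1 ⌊X⌋₊).filter (fun a => a ≡ 8 [MOD M] ∧ a % 2 = 0 ∧ a % 3 ≠ 1)).card : ℕ) : ℝ) ≤
        ∑ a₀ ∈ T, (((As W a₀ X).card : ℕ) : ℝ) := by
      exact_mod_cast hcard
    refine hcard'.trans (Finset.sum_le_sum fun a₀ _ => ?_)
    exact K4_card W a₀ hWpos X (by linarith)
  -- the lower bound
  have hG : ∑ a₀ ∈ T, (0.2761 * (X / (W : ℝ))) ≤
      (((Icc 1 ⌊X⌋₊).filter (fun a => (a ≡ 8 [MOD M] ∧ a % 2 = 0 ∧ a % 3 ≠ 1) ∧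
      c * P / (Real.log P * Real.log X) ≤
        (((Icc 1 ⌊P⌋₊).filter (fun p => p.Prime ∧ (a * p ^ 2 - 1).Prime)).card : ℝ))).card : ℝ) := by
    have hsub : T.biUnion (fun a₀ => (As W a₀ X).filter (fun a =>
          c * P / (Real.log P * Real.log X) ≤ ((Rq W (b a₀) P a).card : ℝ))) ⊆
        (Icc 1 ⌊X⌋₊).filter (fun a => (a ≡ 8 [MOD M] ∧ a % 2 = 0 ∧ a % 3 ≠ 1) ∧
          c * P / (Real.log P * Real.log X) ≤
          (((Icc 1 ⌊P⌋₊).filter (fun p => p.Prime ∧ (a * p ^ 2 - 1).Prime)).card : ℝ)) := by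
      intro a ha
      obtain ⟨a₀, ha₀, ha⟩ := Finset.mem_biUnion.1 ha
      obtain ⟨ha, hc1⟩ := Finset.mem_filter.1 ha
      obtain ⟨ha1, ha2⟩ := Finset.mem_filter.1 ha
      obtain ⟨-, h8, h20, h30⟩ := Finset.mem_filter.1 ha₀
      refine Finset.mem_filter.2 ⟨ha1, ⟨(ha2.of_dvd hMW).trans h8, ?_, ?_⟩, hc1.trans ?_⟩
      · rw [← h20]
        exact ha2.of_dvd h2W
      · intro h3
        apply h30
        rw [← h3]
        exact (ha2.of_dvd h3W).symm
      · have : (Rq W (b a₀) P a) ⊆ (Icc 1 ⌊P⌋₊).filter (fun p => p.Prime ∧ (a * p ^ 2 - 1).Prime) := by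
          intro p hp
          obtain ⟨hp, hp2⟩ := Finset.mem_filter.1 hp
          obtain ⟨hp1, hp3, -⟩ := Finset.mem_filter.1 hp
          exact Finset.mem_filter.2 ⟨hp1, hp3, hp2⟩
        exact_mod_cast Finset.card_le_card this
    have hdisj : (T : Set ℕ).PairwiseDisjoint (fun a₀ => (As W a₀ X).filter (fun a =>
          c * P / (Real.log P * Real.log X) ≤ ((Rq W (b a₀) P a).card : ℝ))) := by
      intro x hx y hy hxy
      refine Finset.disjoint_left.2 fun a hax hay => hxy ?_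
      have e1 : a ≡ x [MOD W] := (Finset.mem_filter.1 (Finset.mem_filter.1 hax).1).2
      have e2 : a ≡ y [MOD W] := (Finset.mem_filter.1 (Finset.mem_filter.1 hay).1).2
      have hx' := Finset.mem_range.1 (Finset.mem_filter.1 (Finset.mem_coe.1 hx)).1
      have hy' := Finset.mem_range.1 (Finset.mem_filter.1 (Finset.mem_coe.1 hy)).1
      have e3 : x ≡ y [MOD W] := e1.symm.trans e2
      exact Nat.ModEq.eq_of_lt_of_lt e3 hx' hy'
    have hcard := Finset.card_le_card hsub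
    rw [Finset.card_biUnion hdisj] at hcard
    have hcard' : ∑ a₀ ∈ T, (((As W a₀ X).filter (fun a =>
          c * P / (Real.log P * Real.log X) ≤ ((Rq W (b a₀) P a).card : ℝ))).card : ℝ) ≤
        (((Icc 1 ⌊X⌋₊).filter (fun a => (a ≡ 8 [MOD M] ∧ a % 2 = 0 ∧ a % 3 ≠ 1) ∧
          c * P / (Real.log P * Real.log X) ≤
          (((Icc 1 ⌊P⌋₊).filter (fun p => p.Prime ∧ (a * p ^ 2 - 1).Prime)).card : ℝ))).card : ℝ) := by
      exact_mod_cast hcard
    refine le_trans (Finset.sum_le_sum fun a₀ ha₀ => ?_) hcard'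
    exact h X P hX0 ⟨hP1, hP2⟩ a₀ (b a₀) (hb1 a₀ ha₀) (hb2 a₀ ha₀)
  refine le_trans ?_ hG
  refine le_trans (mul_le_mul_of_nonneg_left hS (by norm_num)) ?_
  rw [Finset.mul_sum]
  refine Finset.sum_le_sum fun a₀ _ => ?_
  have h3 : 3000 ≤ X / (W : ℝ) := by
    rw [le_div_iff₀ hWr]
    exact hX2
  nlinarith

end Pool.Agent.PT
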